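import Pool.Agent.Y229.PG.Nd

/-!
# The weak monodromy conjecture for nondegenerate compositions

Let `f(x) = Φ(x, p_1(x) / c_1, …, p_k(x) / c_k)`, where `Φ(x, z)` and `p_1(x), …, p_k(x)` are polynomials such
that `G = Φ(x, z) + ∑_i y_i (c_i z_i - p_i(x))` is nondegenerate with respect to its Newton polytope. We
prove that every pole `s0` of the global topological zeta function of `f : ℂ ^ N → ℂ` satisfies
`b_f(s0 - i) = 0` for some natural number `i`, so that `exp(2 π i s0)` is an eigenvalue of the monodromy
of `f` (Malgrange, Kashiwara).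

For `k = 0` these are the nondegenerate polynomials (the starting result `NondegenerateGlobal`). For
`k > 0` they are in general degenerate with respect to their Newton polytopes, in all coordinates, not
reduced and with nonisolated singularities: products of powers `x ^ u ∏_i p_i ^ (e_i)` of the members of
a nondegenerate system (`Φ` a monomial), sums of such products, and, more generally, iterated
compositions (second part of the theorem) such as `((x_2 ^ 2 - x_1 ^ 3) ^ 2 - x_1 ^ 5 x_2) ^ 2 + …`.
The germs of `f` at the points outside the origin need not be nondegenerate in suitable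
coordinates, so this is not contained in the theorem on polynomials with stably nondegenerate germs
(`StablyNondegenerateGermsGlobal`); here there is only one condition, on the polynomial `G`.

Method. `f + ∑ y_i z_i` becomes `G` by an automorphism of the polynomial ring. If `b(s) f ^ s = P f ^ (s + 1)`
and `b(s) = (s + 1) c(s)`, then `f + ∑ y_i z_i` has a functional equation with `(s + 1) c(s + k)`; for `G`
it is deformed to very general coefficients (`W425.ND`), and the relation obtained gives the pole
part of `Z_G`. Finally `1 - Z_f(s) = (1 - Z_G(s - k)) s (s - k + 1) / ((s - k) (s + 1))`: for an arc with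
`ord z = c ≤ ord f` the values `f + y z` are equidistributed like `t ^ c y`, and for `c > ord f` the value
has the order of `f`.
-/

set_option autoImplicit false

namespace Pool.Agent.Results.MP_a2a574_ag.NondegenerateCompositions

open Polynomial Pool.Agent.H628R4.TP Pool.Agent.W425.ND
open Pool.Agent.W425.SM (SmoothFan Principal)
open Pool.Agent.W422.GC (topZetaG)
open Pool.Agent.Y229.RE (unstab ex)
open Pool.Agent.W749.JI (fam)

/-- **The weak monodromy conjecture for the global topological zeta functions of nondegenerate
compositions.**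

Let exponents `m_j ∈ ℕ ^ (N + k)` of monomials in `x_1, …, x_N, z_1, …, z_k` be given, `j = 1, …, r`, in groups
`π j ∈ {0, …, k}` (in each group the `m_j` are distinct; in the group `0` they are nonzero), let
`a_j ∈ ℂ`, `Φ = fam π m a 0 = ∑_{π j = 0} a_j X ^ (m_j)` and `l_i = fam π m a i = ∑_{π j = i} a_j X ^ (m_j)`,
`i = 1, …, k`. Let `G = Φ + ∑_i y_i l_i`, a polynomial in `x, y, z` with the exponents `ex π m`, be nondegenerate
with respect to its Newton polytope (`Nondeg (ex π m) a`: for every face of the polytope, the face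
polynomial and its derivatives have no common zero in the torus).

First part: let `l_i = c_i z_i - p_i(x)`, `c_i ≠ 0`, for all `i`, and let
`f(x) = Φ(x, p_1(x) / c_1, …, p_k(x) / c_k)` be non-constant. Second part: let `θ` be an automorphism of the
algebra `ℂ[x, z]` with `θ(x_i) = x_i` and `θ(z_i) = l_i` (for example `l_i = c_i z_i - p_i(x, z_1, …, z_{i-1})`,
`c_i ≠ 0`), and let `f ∈ ℂ[x]` be a non-constant polynomial with `Φ = f + ∑ q_i l_i`, `q_i ∈ ℂ[x, z]`.

In both cases let `b` be a polynomial with `IsBFunction f b` (`b(s) f ^ s = P(s) f ^ (s + 1)` for a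
differential operator `P(s)` in the Weyl algebra, polynomial in `s`; for example `b = b_f`), and let `R`
be a smooth fan subdividing the orthant of `ℝ ^ (N + 2 k)` on which the ideal of the monomials of `G`
becomes principal. Then every pole `s0` with negative real part (all the poles are negative
rational numbers) of the global topological zeta function of `f`, `Z_f = unstab k 1 Z_G`, satisfies
`b(s0 - i) = 0` for some `i ∈ ℕ`. Here `Z_G = topZetaG (ex π m) R` is the global topological zeta function
of the nondegenerate polynomial `G` on the toric embedded resolution given by `R`, and `unstab k 1 Z` is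
given by `1 - Z_f(s) = (1 - Z(s - k)) s (s - k + 1) / ((s - k) (s + 1))`. -/
theorem result {N k r : ℕ} (hr : 1 ≤ r) (π : Fin r → Fin (k + 1))
    (m : Fin r → Fin (N + k) → ℕ) (hinj : ∀ j j', π j = π j' → m j = m j' → j = j')
    (hm : ∀ j, π j = 0 → m j ≠ 0) (a : Fin r → ℂ) (hnd : Nondeg (ex π m) a) :
    (∀ (c : Fin k → ℂ) (p : Fin k → MvPolynomial (Fin N) ℂ), (∀ i, c i ≠ 0) →
      (∀ i : Fin k, fam π m a i.succ = MvPolynomial.C (c i) * MvPolynomial.X (Fin.natAdd N i) -
        MvPolynomial.rename (Fin.castAdd k) (p i)) →
      ∀ f : MvPolynomial (Fin N) ℂ, f = MvPolynomial.aeval (Fin.append MvPolynomial.X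
        fun i => MvPolynomial.C (c i)⁻¹ * p i) (fam π m a 0) → f.totalDegree ≠ 0 →
      ∀ b : ℂ[X], IsBFunction f b →
      ∀ R : SmoothFan (N + (k + k)), Principal (ex π m) R →
      ∀ s0 : ℂ, s0.re < 0 → (unstab k 1 (topZetaG (ex π m) R)).denom.eval s0 = 0 →
        ∃ i : ℕ, b.eval (s0 - i) = 0) ∧
    (∀ θ : MvPolynomial (Fin (N + k)) ℂ ≃ₐ[ℂ] MvPolynomial (Fin (N + k)) ℂ,
      (∀ i, θ (MvPolynomial.X (Fin.castAdd k i)) = MvPolynomial.X (Fin.castAdd k i)) →
      (∀ i, θ (MvPolynomial.X (Fin.natAdd N i)) = fam π m a i.succ) →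
      ∀ (f : MvPolynomial (Fin N) ℂ) (q : Fin k → MvPolynomial (Fin (N + k)) ℂ),
        f.totalDegree ≠ 0 → fam π m a 0 =
          MvPolynomial.rename (Fin.castAdd k) f + ∑ i, q i * fam π m a i.succ →
      ∀ b : ℂ[X], IsBFunction f b →
      ∀ R : SmoothFan (N + (k + k)), Principal (ex π m) R →
      ∀ s0 : ℂ, s0.re < 0 → (unstab k 1 (topZetaG (ex π m) R)).denom.eval s0 = 0 →
        ∃ i : ℕ, b.eval (s0 - i) = 0) := by
  refine ⟨?_, ?_⟩
  · intro c p hc hl f hf hf0 b hb R hR s0 hre hs
    obtain ⟨θ, h1, h2⟩ := Pool.Agent.Y229.PG.graph_equiv c hc p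
    obtain ⟨q, hq⟩ := Pool.Agent.Y229.PG.graph_restrict c hc p (fam π m a 0)
    rw [← Pool.Agent.Y229.PG.tw_one'] at hs
    refine Pool.Agent.Y229.PG.nd_compositions hr π m hinj hm a hnd θ h1 (fun i => ?_) f q hf0 ?_
      b hb R hR 1 le_rfl s0 hre hs
    · rw [h2, hl]
    · rw [hf]
      simp only [hl]
      exact hq
  · intro θ hx hz f q hf hF b hb R hR s0 hre hs
    rw [← Pool.Agent.Y229.PG.tw_one'] at hs
    exact Pool.Agent.Y229.PG.nd_compositions hr π m hinj hm a hnd θ hx hz f q hf hF
      b hb R hR 1 le_rfl s0 hre hs

end Pool.Agent.Results.MP_a2a574_ag.NondegenerateCompositions
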