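import Pool.Agent.Y228.RR.Top

set_option autoImplicit false

/-! # The monodromy conjecture for products of powers of forms over ideals with Rees divisors

Let `g t j ∈ ℂ[x_i]`, `t ∈ T`, be generators of ideals `I_t ≠ 0` (no condition on the dimension, on
the number of the ideals or on their zero sets), let `F_t = ∑_j y_{t,j} g t j`, where the `y_{t,j}`
are further variables, separate for each `t` (`blockForm`), and let `f = ∏ t, F_t ^ a t` (`powProd`).
Let `Y` be a log resolution of the product of the `I_t` with `a t > 0`, with the components `E_i`,
`i ∈ I`, let `k i` be the multiplicity of `E_i` in the relative canonical divisor and `m i t` the order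
of `I_t` along `E_i`. Locally on `Y` the form `F_t` is one of the `g t j` times
`y_{t,j} + ∑_{i ≠ j} h_i y_{t,i}`, so it is a monomial times a function whose zero locus is smooth;
these zero loci, for the different `t`, cross each other and the `E_i` normally. Hence `Y` times the
space of the `y` is an embedded resolution of `f`, with the components `E_i`, of multiplicity
`N_i = ∑ t, a t * m i t` (and `ν_i = k i + 1`), and, for `a t > 0`, the strict transform of `F_t = 0`, of
multiplicity `a t` (and `ν = 1`): `mulR`, `nuR`.

The global topological zeta function of `f` is `topZ (nuR k T) (mulR a m) χ`, the sum over the sets `J`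
of components of `χ J ∏_{i ∈ J} 1 / (N_i s + ν_i)`, where `χ J` is the Euler characteristic of the stratum
`E_J°`. The theorem: if the `E_i` with `N_i > 0` which occur in a stratum with `χ J ≠ 0` are Rees
divisors of the product of the ideals, or if at least their numbers `-ν_i / N_i` come from Rees
divisors (`FromRees`), then every pole of the topological zeta function is a root of the
Bernstein-Sato polynomial of `f`; by the theorem of Malgrange and Kashiwara `exp(2 π i s₀)` is a
monodromy eigenvalue of `f` for every pole `s₀`.

The proof: a functional equation of `f` gives a functional equation of the product of the powers of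
the ideals, with the same `b` (`locEq_of_powProd`); a Rees divisor of this product gives roots, by a
residue computation at a general point of `E_i` (`rees_prod`); the roots `-1 / a t` come from the
strict transforms (`strict_root`). -/

namespace Pool.Agent.Results.MP_a2a574_ag.ReesProducts

open Pool.Agent.H628R4.TP Pool.Agent.TH192.DT Pool.Agent.Y231.RF Pool.Agent.Y228.RR

/-- **The monodromy conjecture for products of powers of forms over ideals whose exceptional
divisors are Rees divisors.** Every pole `s₀` of the topological zeta function of
`f = ∏ t, F_t ^ a t`, `F_t = ∑_j y_{t,j} g t j`, computed on the resolution described above, is a root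
of every `b` with `b(s) f ^ s = P(s) f ^ (s + 1)`, in particular of the Bernstein-Sato polynomial
of `f`, if the numbers `-ν_i / N_i` of the components `E_i` come from Rees divisors.

`FromRees g a 1 ν N` says that `ν / N = (k_E + 1 + l) / N_E` for a Rees divisor `E` of the product of the
ideals `I_t` with `a t ≠ 0`, where `k_E` is the multiplicity of `E` in the relative canonical divisor,
`N_E` is the order of `∏ t, I_t ^ a t` along `E`, and `l < N_E` is the order along `E` of some
polynomial (for instance `1`, with `l = 0`); for a component `E_i` which is itself a Rees divisor
this is so with `E = E_i` and `l = 0`.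

`Chart g` is a formal chart of the resolution at a point `p` of a prime divisor `E` over the affine
space: power series `ξ i` (the coordinates `x i` of the affine space), in formal coordinates at `p`
one of which, `z`, is the equation of `E`, whose Jacobian determinant is `z ^ k` times a unit, and
for which each `I_t` becomes `(z ^ m t)`. `E.IsRees A` says that the map from `E` to the product of
the affine space and of the projective spaces of the generators of the `I_t`, `t ∈ A`, is unramified
at `p`: some functions which together with `z` are formal coordinates at `p` are pull-backs of
polynomials or of quotients `(∑ j, c_j g s j) / g s (j0 s)`, `s ∈ A`. This is so at the general points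
of a divisor `E` if and only if `E` is a Rees divisor of the product of the `I_t`, `t ∈ A` (it is not
contracted in the blow-up of the product). -/
theorem result {σ T I : Type} [Fintype σ] [DecidableEq σ] [Fintype T] [DecidableEq T] [Fintype I]
    {κ : T → Type} [∀ t, Fintype (κ t)] [∀ t, DecidableEq (κ t)]
    (g : (t : T) → κ t → MvPolynomial σ ℂ) (hg : ∀ t, ∃ j, g t j ≠ 0) (a : T → ℕ)
    (k : I → ℕ) (m : I → T → ℕ) (χ : Finset (I ⊕ T) → ℤ)
    (hE : ∀ i, 0 < ∑ t, a t * m i t → (∃ J, χ J ≠ 0 ∧ Sum.inl i ∈ J) →
      FromRees g a 1 (k i + 1) (∑ t, a t * m i t))
    (s₀ : ℂ) (hs₀ : (topZ (nuR k T) (mulR a m) χ).denom.eval s₀ = 0)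
    (b : Polynomial ℂ) (hb : IsBFunction (powProd a g) b) : b.eval s₀ = 0 :=
  top_global g hg a k m χ hE s₀ hs₀ b hb

end Pool.Agent.Results.MP_a2a574_ag.ReesProducts
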