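import Pool.Agent.Y229.PS.Weak

/-!
# The weak monodromy conjecture for polynomials with stably nondegenerate germs

The germ of a polynomial `f(x)`, `x = (x_1, …, x_N)`, at a point `p` with `f(p) = 0` is called stably
nondegenerate if for some `k` the polynomial `f(p + x) + y_1 z_1 + ⋯ + y_k z_k` becomes, in suitable
formal coordinates at the origin and up to a unit factor, nondegenerate with respect to the compact faces of its Newton
polyhedron (the usual local nondegeneracy). Smooth points and normal crossings are of this kind,
the isolated and nonisolated singularities which are nondegenerate in suitable coordinates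
(`k = 0`), and those which become nondegenerate after an embedding of the germ `(ℂ ^ N, p)` as a
nondegenerate complete intersection (second part of the theorem), for example
`(x_2 ^ 2 - x_1 ^ 3) ^ 2 + x_1 ^ 5 x_2` with `z = x_2 ^ 2 - x_1 ^ 3`, and the products of powers of the
members of a nondegenerate system of functions.

If all the germs of `f` at the points of `D = {f = 0}` are stably nondegenerate, then every pole
`s0` of the global topological zeta function of `f` satisfies `b_f(s0 - i) = 0` for some natural
number `i`, so that `exp(2 π i s0)` is an eigenvalue of the monodromy of `f` by Malgrange and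
Kashiwara. The global topological zeta function is the sum
`χ(ℂ ^ N \ D) + ∑_t χ(S_t) Z_t(s)`
over a finite partition of `D` in locally closed sets `S_t` such that `Z_t` is the local topological
zeta function of `f` at every point of `S_t`. (It contains the term `χ / (s + 1)`, `χ` the Euler
characteristic of the set of the smooth points of `D`, and one term for each singular point if
these are isolated.) Here `Z_t` is computed at one point `p_t ∈ S_t`.

The local topological zeta functions `Z_f` of `f` and `Z` of `f + y_1 z_1 + ⋯ + y_k z_k` at the origin
are related by `1 - Z_f(s) = (1 - Z(s - k)) s (s - k + 1) / ((s - k) (s + 1))` (integrate over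
the `y_i` first: for an arc with `ord z = c` the value `f + y z` has order `ord f` if `ord f ≤ c`, and is
otherwise distributed like `t ^ c y`), and `Z` is given by the formula of Denef and Loeser for the
Newton polyhedron.

Method: a functional equation of `f` gives one of `f + ∑ y_i z_i`, which is transported to the
coordinates where the polynomial is nondegenerate, with formal power series coefficients; there
it is deformed to very general coefficients (`Y229.CF`), and the relation obtained gives the
pole part of the zeta function.
-/

set_option autoImplicit false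

namespace Pool.Agent.Results.MP_a2a574_ag.StablyNondegenerateGermsGlobal

open Polynomial Pool.Agent.H628R4.TZ Pool.Agent.H628R4.TP Pool.Agent.W425.SM
  Pool.Agent.W422.GC
open Pool.Agent.Y229.CF (NondegIC)
open Pool.Agent.Y229.GL (glue)
open Pool.Agent.Y229.RE (unstab ex trans)
open Pool.Agent.Y229.PS (StabNondegP)
open Pool.Agent.W749.JI (fam)

/-- **The weak monodromy conjecture for the global topological zeta function of every polynomial
whose germs are stably nondegenerate.**

First part: let `f` be a non-constant polynomial in `N` variables, `b ≠ 0` with `IsBFunction f b`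
(`b(s) f ^ s = P(s) f ^ (s + 1)` for a differential operator `P(s)` in the Weyl algebra, polynomial in
`s`; for example `b = b_f`). For `t = 1, …, m` let `p_t` be a point with `f(p_t) = 0` such that
`f(p_t + x)` (`trans (p t) f`) is stably nondegenerate
(`StabNondegP (trans (p t) f) (k t) (v t)`: `f(p_t + x) + ∑_{i ≤ k_t} y_i z_i` becomes in suitable
formal coordinates at the origin, up to a unit factor, a polynomial `g_t = ∑_j a_j X ^ (v t j)` which is nondegenerate for
the compact faces of its Newton polyhedron). Let `R t` be a smooth fan on which `(X ^ (v t j))_j` is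
principal, `topZetaGLocal (v t) (R t)` the local topological zeta function of `g_t` at the origin
computed on the toric embedded resolution, and `Z_t = unstab (k t) 1 (topZetaGLocal (v t) (R t))`
that of `f` at `p_t`. Then every pole `s0` with negative real part (all the poles are negative
rational numbers) of `c + c' / (s + 1) + ∑_t χ_t Z_t(s)`, `c`, `c'`, `χ_t` arbitrary integers
(`glue 1 c c' χ Z`), satisfies `b(s0 - i) = 0` for some `i ∈ ℕ`.

Second part: let `fam π m c i = ∑_{π j = i} c_j x ^ (m_j)`, `i = 0, …, k`, be polynomials in `N + k`
variables `x, z` without constant terms: `F = fam π m c 0`, `l_i = fam π m c i` for `i ≥ 1`. Let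
`(F, l_1, …, l_k)` be nondegenerate for the compact faces of their Newton polyhedra (`NondegIC`), let
the matrix of the `∂ l_i / ∂ z_j` be invertible at the origin, so that `V = {l = 0}` is smooth with
coordinates `x`, and let `f ∈ ℂ[[x]]` be the restriction of `F` to `V`: `F = f + ∑ q_i l_i` with formal
power series `q_i`, `q_i(0) = 0`. Then `f` is stably nondegenerate, with the exponents of
`F + ∑ y_i l_i` (`ex π m`). (To be applied to the polynomials `f(p_t + x)`.) -/
theorem result :
    (∀ {N n : ℕ} (f : MvPolynomial (Fin N) ℂ), f.totalDegree ≠ 0 → ∀ b : ℂ[X], b ≠ 0 →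
      IsBFunction f b → ∀ p : Fin n → Fin N → ℂ, (∀ t, MvPolynomial.eval (p t) f = 0) →
      ∀ k r : Fin n → ℕ, (∀ t, 1 ≤ r t) → ∀ v : ∀ t, Fin (r t) → Fin (N + (k t + k t)) → ℕ,
      (∀ t, StabNondegP (trans (p t) f : MvPowerSeries (Fin N) ℂ) (k t) (v t)) →
      ∀ R : ∀ t, SmoothFan (N + (k t + k t)), (∀ t, Principal (v t) (R t)) →
      ∀ (c c' : ℤ) (χ : Fin n → ℤ) (s0 : ℂ), s0.re < 0 →
        (glue 1 c c' χ fun t => unstab (k t) 1 (topZetaGLocal (v t) (R t))).denom.eval s0 = 0 →
        ∃ i : ℕ, b.eval (s0 - i) = 0) ∧
    (∀ {N k r : ℕ} (π : Fin r → Fin (k + 1)) (m : Fin r → Fin (N + k) → ℕ) (c : Fin r → ℂ),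
      1 ≤ r → (∀ j j', π j = π j' → m j = m j' → j = j') → (∀ j, m j ≠ 0) → NondegIC π m c →
      (Matrix.of fun i j : Fin k => MvPolynomial.coeff (Finsupp.single (Fin.natAdd N j) 1)
        (fam π m c i.succ)).det ≠ 0 →
      ∀ (f : MvPowerSeries (Fin N) ℂ) (q : Fin k → MvPowerSeries (Fin (N + k)) ℂ),
        (∀ i, MvPowerSeries.constantCoeff (q i) = 0) →
        (fam π m c 0 : MvPowerSeries (Fin (N + k)) ℂ) =
          MvPowerSeries.rename (Fin.castAdd k) f +
            ∑ i, q i * (fam π m c i.succ : MvPowerSeries (Fin (N + k)) ℂ) →
        StabNondegP f k (ex π m)) := by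
  refine ⟨?_, ?_⟩
  · intro N n f hf b hb0 hb p hp k r hr v hv R hR c c' χ s0 hre hs
    exact Pool.Agent.Y229.PS.global_stabP f hf b hb0 hb p hp k r hr v hv R hR c c' χ s0 hre hs
  · intro N k r π m c hr hinj hm hnd hdet f q hq hF
    exact Pool.Agent.Y229.PS.stabP_of_emb hr π m hinj hm c hnd hdet f q hq hF

end Pool.Agent.Results.MP_a2a574_ag.StablyNondegenerateGermsGlobal
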