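import Pool.Agent.Y230.TH.TopFin

/-!
# The monodromy conjecture for Thom-Sebastiani sums `∑ y_j f_j(x) + g(z)`

We prove the monodromy conjecture for the global topological zeta functions of the following
polynomials `F`: for every pole `s₀` there is a root `s₀ - i`, `i ∈ ℕ`, of the Bernstein-Sato polynomial
of `F`; by the theorem of Malgrange and Kashiwara, `exp(2 π i s₀)` is an eigenvalue of the monodromy.

Let `𝓘` and `𝓗` be the least classes of ideals and of hypersurfaces with the following properties.

* `𝓘` contains the powers `(x ^ m)`; all non-zero ideals of `ℂ[x, y]`; the ideals of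
  `ℂ[x₀, x₁, x₂]` generated by forms of the same degree, three of which are algebraically independent;
  the ideals generated by forms of the same degree without a common zero outside the origin; the
  principal ideals `(g)` of polynomials which are nondegenerate with respect to the Newton polytope;
  the ideals whose numerical data come from Rees divisors; the ideals `(f_1, …, f_k)` in any number of
  variables with very general coefficients at the vertices of the Newton polytopes of the `f_i` and
  arbitrary other coefficients; the principal ideals `(h)` with `h` in `𝓗`; and `𝓘` is closed under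
  sums and products in disjoint sets of variables.
* `𝓗` contains all plane curves, the polynomials with very general coefficients at the vertices of
  the Newton polytope and arbitrary other terms, and the nondegenerate polynomials whose zeta function
  has at most a simple pole at `-1`; for `(f_j)` in `𝓘` and `g` in `𝓗` it contains `∑ y_j f_j(x)` and
  `∑ y_j f_j(x) + g(z)`, with new variables `y_j`; and `𝓗` is closed under products in disjoint
  sets of variables and under dropping variables which do not occur.

For example, `∑ y_j f_j(x₁, x₂) + g(z₁, z₂)` with arbitrary polynomials `f_j` and `g` in two variables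
each, and all polynomials which are obtained if this construction is repeated.

The second part treats `∏ t, F_t ^ a t`, `F_t = ∑_j y_{t,j} f_{t,j}(x)`, for the ideals
`∏ t, (f_{t,j})_j ^ a t` in `𝓘`.

For `F = ∑ y_j f_j(x) + g(z)` the zeta function is obtained from the ones of `(f_j)` and `g` by a
product of exponential polynomials, see `Pool/Agent/Y230/TH/TopDefs`, so that the poles `≠ -1` are
among the sums `α + β`, where `α` is a pole of `Z_I` and `β` a pole of `(s + 1) Z_g`; and `α + β` is a
root of `b_F(s) / (s + 1)` if `α` is a root of `b_I` and `β` is one of `b_g(s) / (s + 1)`: this is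
proved with the description of the roots of `b_F(s) / (s + 1)` by the microlocal `b`-function.
-/

set_option autoImplicit false

namespace Pool.Agent.Results.MP_a2a574_ag.ThomSebastianiGlobal

open MvPolynomial Pool.Agent.W574.SM Pool.Agent.W574.RO Pool.Agent.H628R4.TP Pool.Agent.TH192.DT
  Pool.Agent.Y229 Pool.Agent.Y228.AT Pool.Agent.Y230.TH

/-- **The monodromy conjecture for Thom-Sebastiani sums `∑ y_j f_j(x) + g(z)`.** Let
`TT WeakAt WeakHyp c A Z` be the classes of ideals (`c = false`) and of hypersurfaces
(`c = true`) with their global topological zeta functions `Z` which are obtained from the ideals in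
`WeakAt` and the hypersurfaces in `WeakHyp` by sums and products in disjoint sets of
variables, by `∑ y_j f_j(x)` and by `∑ y_j f_j(x) + g(z)`.

(1) Let `F` be a polynomial with `TT WeakAt WeakHyp false (F) Z`, and let `b` satisfy a
functional equation `b(s) F ^ s = P(s) F ^ (s + 1)`, where `P(s)` is a differential operator with
polynomial coefficients. Then for every pole `s₀` of `Z` there is `i ∈ ℕ` with `b(s₀ - i) = 0`.

(2) Let the `f_{t,j}` be polynomials in finitely many variables `x_i`, let
`F_t = ∑_j y_{t,j} f_{t,j}(x)` (`blockForm`) and `F = ∏ t, F_t ^ a t` (`powProd`), `a t ≥ 1`, and let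
the ideal `∏ t, (f_{t,j})_j ^ a t`, which is generated by the family `powFam a f`, satisfy
`TT WeakAt WeakHyp false (powFam a f) Z'`. The global topological zeta function of `F` is
`Z' ∏ t, 1 / (1 + a t s)`: if `Y` is a log resolution of the ideal, then `Y` times the space of the
`y_{t,j}` is an embedded resolution of `F`, because locally on `Y`, `F_t` is one of the `f_{t,j}` times
a linear form in the `y_{t,j}`, one of whose coefficients is a unit. Let `b` satisfy a functional
equation of `F`. Then for every pole `s₀` of `Z' ∏ t, 1 / (1 + a t s)` there is `i ∈ ℕ` with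
`b(s₀ - i) = 0`. -/
theorem result :
    (∀ (σ : Type) (F : MvPolynomial σ ℂ) (Z : RatFunc ℂ),
      TT WeakAt WeakHyp false ⟨σ, Fin 1, fun _ => F⟩ Z →
      ∀ b : Polynomial ℂ, IsBFunction F b →
      ∀ s₀ : ℂ, Z.denom.eval s₀ = 0 → ∃ i : ℕ, b.eval (s₀ - i) = 0) ∧
    (∀ (σ T : Type) [Finite σ] [Fintype T] [DecidableEq T] [Nonempty T] (κ : T → Type)
      [∀ t, Fintype (κ t)] (a : T → ℕ), (∀ t, 1 ≤ a t) →
      ∀ (f : (t : T) → κ t → MvPolynomial σ ℂ) (Z' : RatFunc ℂ),
      TT WeakAt WeakHyp false (powFam a f) Z' →
      ∀ b : Polynomial ℂ, IsBFunction (powProd a f) b →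
      ∀ s₀ : ℂ, (Z' * ∏ t, fac (a t) 1).denom.eval s₀ = 0 → ∃ i : ℕ, b.eval (s₀ - i) = 0) := by
  classical
  refine ⟨fun σ F Z h b hb s₀ hs => tt_weak F Z h b hb s₀ hs, ?_⟩
  intro σ T _ _ _ _ κ _ a ha f Z' h b hb s₀ hs
  exact tt_weak_pow a ha f Z' h b hb s₀ hs

end Pool.Agent.Results.MP_a2a574_ag.ThomSebastianiGlobal
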